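import Mathlib
import Pool.Agent.Q263.LD.Mixed

/-! # The determinant `D_p` of the matrix `x + ((j+k)/p) + ((j-k)/p) + (j/p) y + (k/p) z + (jk/p) w` -/

set_option autoImplicit false

namespace Pool.Agent.Results.MP_c81705_nt.DeterminantD

open Q263.LD.Mixed

/-- **Answer to Q1: yes.** -/
theorem result (p : ℕ) [Fact p.Prime] (h3 : 3 < p) :
    (p % 4 = 1 → ∀ (R : Type*) [CommRing R] (x y z w : R),
      (matD p ((p - 1) / 2) x y z w).det =
        (legendreSym p 2 : R) * (p : R) ^ ((p + 3) / 4) * x) ∧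
    (p % 4 = 3 → ∀ (K : Type*) [Field K] [NumberField K], Module.finrank ℚ K = 2 →
      (∃ r : K, r ^ 2 = -(p : K)) → ∀ (R : Type*) [CommRing R] (x y z w : R),
      (matD p ((p - 1) / 2) x y z w).det =
        (-1) ^ ((NumberField.classNumber K - 1) / 2) * (p : R) ^ ((p - 3) / 4) *
        ((p : R) * x + (2 - (legendreSym p 2 : R)) * (NumberField.classNumber K : R) *
          ((y + 2) * z - w * x))) :=
  detD p h3

end Pool.Agent.Results.MP_c81705_nt.DeterminantD
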