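import Mathlib
import Pool.Agent.Q263.LD.Mixed

/-! # The determinant `E_p` of the matrix `((j+k)/p) - ((j-k)/p) + (j/p) y + (k/p) z` -/

set_option autoImplicit false

namespace Pool.Agent.Results.MP_c81705_nt.DeterminantE

open Q263.LD.Mixed

/-- **Answer to Q2: yes.** -/
theorem result (p : ℕ) [Fact p.Prime] (h4 : p % 4 = 1) :
    ∃ c : ℤ, ∀ (R : Type*) [CommRing R] (y z : R),
      (matE p ((p - 1) / 2) y z).det = 4 * (p : R) ^ ((p - 5) / 4) * (c : R) * (y * z) :=
  detE p h4

end Pool.Agent.Results.MP_c81705_nt.DeterminantE
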